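import Mathlib
import Pool.Agent.H109R2.SIC.Main

set_option autoImplicit false

namespace Pool.Agent.Results.MP_d0f9e0_co.ApproximateFrames

/-- Approximately maximal equiangular tight frames exist in every large dimension. For every `A`
and every sufficiently large `d` there are `N ≥ d²` unit vectors in `ℂ^d`, `N ≤ (1 + ε) d²`, which
form an exactly tight frame and satisfy `(1 - ε) / (d + 1) ≤ |⟨x_i, x_j⟩|² ≤ (1 + ε) / (d + 1)`
for all `i ≠ j`, where `ε = (log d)^(-A)`. -/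
theorem result (A : ℕ) : ∃ d₀ : ℕ, ∀ d : ℕ, d₀ ≤ d →
    ∃ (N : ℕ) (x : Fin N → EuclideanSpace ℂ (Fin d)),
      d ^ 2 ≤ N ∧ (N : ℝ) ≤ (1 + 1 / Real.log d ^ A) * (d : ℝ) ^ 2 ∧
      (∀ i, ‖x i‖ = 1) ∧
      (∀ i j, i ≠ j →
        |((d : ℝ) + 1) * ‖inner ℂ (x i) (x j)‖ ^ 2 - 1| ≤ 1 / Real.log d ^ A) ∧
      ∀ u : EuclideanSpace ℂ (Fin d),
        ∑ i, ‖inner ℂ (x i) u‖ ^ 2 = ((N : ℝ) / d) * ‖u‖ ^ 2 :=
  Pool.Agent.H109R2.SIC.main A

end Pool.Agent.Results.MP_d0f9e0_co.ApproximateFrames
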