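import Mathlib
import Pool.Agent.H109R2.SICBase
import Pool.Agent.H109R2.OnePair

set_option autoImplicit false

namespace Pool.Agent.Results.MP_d0f9e0_co.OnePhasePair

/-- `x` is a maximal equiangular tight frame in `ℂ^d`. -/
def IsMaximalETF (d : ℕ) (x : Fin (d ^ 2) → EuclideanSpace ℂ (Fin d)) : Prop :=
  (∀ i, ‖x i‖ = 1) ∧ ∀ i j, i ≠ j → ‖inner ℂ (x i) (x j)‖ = 1 / Real.sqrt ((d : ℝ) + 1)

/-- The normalised triple product of three vectors. -/
noncomputable def phase {d : ℕ} (x : Fin (d ^ 2) → EuclideanSpace ℂ (Fin d))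
    (i j k : Fin (d ^ 2)) : ℂ :=
  ((Real.sqrt ((d : ℝ) + 1) : ℝ) : ℂ) ^ 3 *
    (inner ℂ (x i) (x j) * inner ℂ (x j) (x k) * inner ℂ (x k) (x i))

/-- The set of all phases of triples of distinct lines. -/
def phases {d : ℕ} (x : Fin (d ^ 2) → EuclideanSpace ℂ (Fin d)) : Set ℂ :=
  {z | ∃ i j k, i ≠ j ∧ j ≠ k ∧ k ≠ i ∧ z = phase x i j k}

/-- If at most two non-real numbers occur among the phases of a maximal ETF in `ℂ^d`, `d ≥ 2`, then
either `d = 3` and all phases are cube roots of `-1`, or all phases are fourth roots of unity and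
`d = 2`, or `8 ∣ d` and `d + 1` is a perfect square. -/
theorem result (d : ℕ) (hd : 2 ≤ d) (x : Fin (d ^ 2) → EuclideanSpace ℂ (Fin d))
    (hx : IsMaximalETF d x) (h : {z ∈ phases x | z.im ≠ 0}.ncard ≤ 2) :
    (d = 3 ∧ ∀ z ∈ phases x, z ^ 3 = -1) ∨
    ((∀ z ∈ phases x, z ^ 4 = 1) ∧ (d = 2 ∨ (8 ∣ d ∧ IsSquare (d + 1)))) := by
  classical
  have hfin : {z ∈ phases x | z.im ≠ 0}.Finite := by
    have h1 : (Set.range fun p : Fin (d ^ 2) × Fin (d ^ 2) × Fin (d ^ 2) =>
        phase x p.1 p.2.1 p.2.2).Finite := Set.finite_range _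
    refine h1.subset ?_
    rintro z ⟨⟨i, j, k, -, -, -, rfl⟩, -⟩
    exact ⟨(i, j, k), rfl⟩
  -- the set is closed under conjugation, hence contained in `{α, conj α}`
  have hconj : ∀ z ∈ {z ∈ phases x | z.im ≠ 0}, star z ∈ {z ∈ phases x | z.im ≠ 0} := by
    rintro z ⟨⟨i, j, k, hij, hjk, hki, rfl⟩, him⟩
    refine ⟨⟨i, k, j, hki.symm, hjk.symm, hij.symm, ?_⟩, ?_⟩
    · exact Pool.Agent.H109R2.Phases.nt_conj i j k
    · intro h0
      apply him
      simpa using h0
  have hα : ∃ α : ℂ, ∀ z ∈ {z ∈ phases x | z.im ≠ 0}, z = α ∨ z = star α := by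
    rcases Set.eq_empty_or_nonempty {z ∈ phases x | z.im ≠ 0} with he | ⟨α, hα⟩
    · exact ⟨0, by rw [he]; simp⟩
    · refine ⟨α, fun z hz => ?_⟩
      by_contra hcon
      push Not at hcon
      have hne : α ≠ star α := by
        intro h0
        have := congrArg Complex.im h0
        simp at this
        apply hα.2
        linarith
      have hsub : ({z, α, star α} : Set ℂ) ⊆ {z ∈ phases x | z.im ≠ 0} := by
        intro w hw
        rcases hw with rfl | rfl | rfl
        · exact hz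
        · exact hα
        · exact hconj α hα
      have h3 := Set.ncard_le_ncard hsub hfin
      have h4 : ({z, α, star α} : Set ℂ).ncard = 3 := by
        rw [Set.ncard_insert_of_notMem, Set.ncard_pair hne]
        simp only [Set.mem_insert_iff, Set.mem_singleton_iff, not_or]
        exact ⟨hcon.1, hcon.2⟩
      omega
  obtain ⟨α, hα⟩ := hα
  have key : ∀ i j k, i ≠ j → j ≠ k → k ≠ i → (phase x i j k).im = 0 ∨ phase x i j k = α ∨
      phase x i j k = star α := by
    intro i j k hij hjk hki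
    by_cases h0 : (phase x i j k).im = 0
    · exact Or.inl h0
    · exact Or.inr (hα _ ⟨⟨i, j, k, hij, hjk, hki, rfl⟩, h0⟩)
  rcases Pool.Agent.H109R2.OnePair.main hd hx α key with ⟨h3, h4⟩ | ⟨h4, h5⟩
  · left
    refine ⟨h3, ?_⟩
    rintro z ⟨i, j, k, hij, hjk, hki, rfl⟩
    exact h4 i j k hij hjk hki
  · right
    refine ⟨?_, h5⟩
    rintro z ⟨i, j, k, hij, hjk, hki, rfl⟩
    exact h4 i j k hij hjk hki

end Pool.Agent.Results.MP_d0f9e0_co.OnePhasePair
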