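import Mathlib
import Pool.Agent.H109R2.SICField
import Pool.Agent.H109R2.SICWitt
import Pool.Agent.H109R2.ThreeSq

set_option autoImplicit false

namespace Pool.Agent.Results.MP_d0f9e0_co.TripleProductField

/-- `x` is a maximal equiangular tight frame in `ℂ^d`: `d²` unit vectors whose pairwise inner
products all have modulus `1/√(d+1)`. -/
def IsMaximalETF (d : ℕ) (x : Fin (d ^ 2) → EuclideanSpace ℂ (Fin d)) : Prop :=
  (∀ i, ‖x i‖ = 1) ∧ ∀ i j, i ≠ j → ‖inner ℂ (x i) (x j)‖ = 1 / Real.sqrt ((d : ℝ) + 1)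

/-- the triple product `⟨x_i,x_j⟩⟨x_j,x_k⟩⟨x_k,x_i⟩`. -/
noncomputable def tripleProduct {d : ℕ} (x : Fin (d ^ 2) → EuclideanSpace ℂ (Fin d))
    (i j k : Fin (d ^ 2)) : ℂ :=
  inner ℂ (x i) (x j) * inner ℂ (x j) (x k) * inner ℂ (x k) (x i)

/-- the odd one of the two numbers `d`, `d + 1`. -/
def oddNeighbour (d : ℕ) : ℕ := if Even d then d + 1 else d

open Pool.Agent.H109R2

theorem part_one (d : ℕ) (hd : 3 ≤ d) (x : Fin (d ^ 2) → EuclideanSpace ℂ (Fin d))
    (hx : IsMaximalETF d x) (K : Subfield ℂ) (hK : ∀ i j k, tripleProduct x i j k ∈ K) :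
    (∃ r ∈ K, r ^ 2 = (-1) ^ (d * (d - 1) / 2) * (oddNeighbour d : ℂ)) ∧
    (∀ t : ℕ, ¬ 2 ^ (t + 2) ∣ 4 * (d * (d - 1) / 4) →
      ∃ a : Fin (2 ^ t) → ℂ, (∀ i, a i ∈ K) ∧ ∑ i, a i ^ 2 = -1) := by
  obtain ⟨M, hM⟩ := SIC.exists_matrices (by omega) hx K hK
  have h1 := Witt.MM_key (by omega) M hM
  have he : ((if Even d then d + 1 else d : ℕ) : K) ≠ 0 := by
    split_ifs
    · exact_mod_cast Nat.succ_ne_zero d
    · exact_mod_cast (by omega : d ≠ 0)
  obtain ⟨⟨r, hr⟩, hH⟩ := Witt.key_disc (by omega) he h1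
  refine ⟨⟨r, r.2, ?_⟩, ?_⟩
  · unfold oddNeighbour
    split_ifs at hr ⊢ with hev
    all_goals
      have h2 := congrArg (fun z : K => (z : ℂ)) hr
      push_cast at h2 ⊢
      rw [sq, ← h2]
  · intro t ht
    have hn : 0 < 4 * (d * (d - 1) / 4) := by
      have h3 : 2 ≤ d - 1 := by omega
      have h4 : 6 ≤ d * (d - 1) := by nlinarith
      omega
    obtain ⟨a, ha⟩ := Witt.level hn hH t ht
    refine ⟨fun i => (a i : ℂ), fun i => (a i).2, ?_⟩
    have h2 := congrArg (fun z : K => (z : ℂ)) ha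
    push_cast at h2
    exact h2

/-- the field `ℚ(√-m)` inside `ℂ`. -/
noncomputable def quadField (m : ℕ) : Subfield ℂ where
  carrier := {z | ∃ p q : ℚ, z = p + q * (Real.sqrt m * Complex.I)}
  mul_mem' := by
    rintro _ _ ⟨p, q, rfl⟩ ⟨p', q', rfl⟩
    refine ⟨p * p' - m * q * q', p * q' + p' * q, ?_⟩
    have h : ((Real.sqrt m : ℝ) : ℂ) * (Real.sqrt m : ℝ) = (m : ℂ) := by
      rw [← Complex.ofReal_mul, Real.mul_self_sqrt (Nat.cast_nonneg m)]
      simp
    push_cast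
    linear_combination (q * q' : ℂ) * h * Complex.I ^ 2 + (q * q' * m : ℂ) * Complex.I_sq
  one_mem' := ⟨1, 0, by simp⟩
  add_mem' := by
    rintro _ _ ⟨p, q, rfl⟩ ⟨p', q', rfl⟩
    exact ⟨p + p', q + q', by push_cast; ring⟩
  zero_mem' := ⟨0, 0, by simp⟩
  neg_mem' := by
    rintro _ ⟨p, q, rfl⟩
    exact ⟨-p, -q, by push_cast; ring⟩
  inv_mem' := by
    rintro _ ⟨p, q, rfl⟩
    have h : ((Real.sqrt m : ℝ) : ℂ) * (Real.sqrt m : ℝ) = (m : ℂ) := by
      rw [← Complex.ofReal_mul, Real.mul_self_sqrt (Nat.cast_nonneg m)]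
      simp
    have h1 : ((p : ℂ) + q * (Real.sqrt m * Complex.I)) * (p - q * (Real.sqrt m * Complex.I))
        = ((p ^ 2 + m * q ^ 2 : ℚ) : ℂ) := by
      push_cast
      linear_combination (-(q * q) : ℂ) * h * Complex.I ^ 2 - (q * q * m : ℂ) * Complex.I_sq
    by_cases h0 : (p ^ 2 + m * q ^ 2 : ℚ) = 0
    · have hp : p = 0 := by
        have h2 : (0 : ℚ) ≤ m * q ^ 2 := by positivity
        nlinarith [sq_nonneg p]
      have hq : (m : ℚ) * q ^ 2 = 0 := by rw [hp] at h0; simpa using h0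
      have hz : ((p : ℂ) + q * (Real.sqrt m * Complex.I)) = 0 := by
        rw [← pow_eq_zero_iff (two_ne_zero)]
        have h3 : ((m : ℂ)) * q ^ 2 = 0 := by exact_mod_cast hq
        rw [hp]
        push_cast
        linear_combination (q ^ 2 : ℂ) * h * Complex.I ^ 2 + (q ^ 2 * m : ℂ) * Complex.I_sq - h3
      rw [hz]
      exact ⟨0, 0, by simp⟩
    · refine ⟨p / (p ^ 2 + m * q ^ 2), -q / (p ^ 2 + m * q ^ 2), ?_⟩
      have h2 : ((p : ℂ) + q * (Real.sqrt m * Complex.I)) ≠ 0 := by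
        intro h3
        rw [h3, zero_mul] at h1
        apply h0
        exact_mod_cast h1.symm
      have h4 : ((p ^ 2 + m * q ^ 2 : ℚ) : ℂ) ≠ 0 := by exact_mod_cast h0
      apply inv_eq_of_mul_eq_one_right
      have h5 : ((p / (p ^ 2 + m * q ^ 2) : ℚ) : ℂ)
          + ((-q / (p ^ 2 + m * q ^ 2) : ℚ) : ℂ) * (Real.sqrt m * Complex.I)
          = (p - q * (Real.sqrt m * Complex.I)) / ((p ^ 2 + m * q ^ 2 : ℚ) : ℂ) := by
        push_cast
        ring
      rw [h5, mul_div_assoc', h1, div_self h4]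

theorem sqrt_mul_I_sq (m : ℕ) : ((Real.sqrt m : ℝ) * Complex.I : ℂ) ^ 2 = -(m : ℂ) := by
  have h : ((Real.sqrt m : ℝ) : ℂ) * (Real.sqrt m : ℝ) = (m : ℂ) := by
    rw [← Complex.ofReal_mul, Real.mul_self_sqrt (Nat.cast_nonneg m)]
    simp
  linear_combination h * Complex.I ^ 2 + (m : ℂ) * Complex.I_sq

/-- real and imaginary parts of the square of an element of `ℚ(√-m)`. -/
theorem sq_parts {m : ℕ} (hm : 0 < m) {p q c : ℚ}
    (h : ((p : ℂ) + q * (Real.sqrt m * Complex.I)) ^ 2 = c) :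
    p ^ 2 - m * q ^ 2 = c ∧ p * q = 0 := by
  have h1 : ((p : ℂ) + q * (Real.sqrt m * Complex.I)) ^ 2
      = ((p ^ 2 - m * q ^ 2 : ℚ) : ℂ) + ((2 * (p * q) : ℚ) : ℂ) * (Real.sqrt m * Complex.I) := by
    push_cast
    linear_combination (q ^ 2 : ℂ) * sqrt_mul_I_sq m
  rw [h1] at h
  have hre := congrArg Complex.re h
  have him := congrArg Complex.im h
  have hs : 0 < Real.sqrt m := Real.sqrt_pos.mpr (by exact_mod_cast hm)
  rw [← Complex.ofReal_ratCast, ← Complex.ofReal_ratCast, ← Complex.ofReal_ratCast] at hre him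
  simp only [Complex.add_re, Complex.ofReal_re, Complex.mul_re, Complex.ofReal_im, Complex.I_re,
    Complex.I_im, Complex.mul_im, mul_zero, zero_mul, mul_one,
    Complex.add_im, zero_add, add_zero, sub_self] at hre him
  constructor
  · exact_mod_cast hre
  · have h2 : ((2 * (p * q) : ℚ) : ℝ) = 0 := by
      rcases mul_eq_zero.mp him with h3 | h3
      · exact h3
      · exact absurd h3 hs.ne'
    have h3 : (2 * (p * q) : ℚ) = 0 := by exact_mod_cast h2
    linarith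

theorem mod8_sq (n : ℕ) (h : IsSquare n) : n % 8 = 0 ∨ n % 8 = 1 ∨ n % 8 = 4 := by
  obtain ⟨r, rfl⟩ := h
  rw [Nat.mul_mod]
  have h1 : r % 8 = 0 ∨ r % 8 = 1 ∨ r % 8 = 2 ∨ r % 8 = 3 ∨ r % 8 = 4 ∨ r % 8 = 5
        ∨ r % 8 = 6 ∨ r % 8 = 7 := by omega
  rcases h1 with h1 | h1 | h1 | h1 | h1 | h1 | h1 | h1 <;> rw [h1] <;> norm_num

theorem tri_parity (d : ℕ) : (d % 4 = 0 ∨ d % 4 = 1 → Even (d * (d - 1) / 2)) ∧
    (d % 4 = 2 ∨ d % 4 = 3 → Odd (d * (d - 1) / 2)) := by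
  constructor
  · rintro (h | h)
    · obtain ⟨k, rfl⟩ : ∃ k, d = 4 * k := ⟨d / 4, by omega⟩
      have : 4 * k * (4 * k - 1) / 2 = 2 * (k * (4 * k - 1)) := by
        rw [show 4 * k * (4 * k - 1) = 2 * (2 * (k * (4 * k - 1))) by ring]
        omega
      rw [this]
      exact even_two_mul _
    · obtain ⟨k, rfl⟩ : ∃ k, d = 4 * k + 1 := ⟨d / 4, by omega⟩
      have : (4 * k + 1) * (4 * k + 1 - 1) / 2 = 2 * (k * (4 * k + 1)) := by
        rw [Nat.add_sub_cancel, show (4 * k + 1) * (4 * k) = 2 * (2 * (k * (4 * k + 1))) by ring]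
        omega
      rw [this]
      exact even_two_mul _
  · rintro (h | h)
    · obtain ⟨k, rfl⟩ : ∃ k, d = 4 * k + 2 := ⟨d / 4, by omega⟩
      have : (4 * k + 2) * (4 * k + 2 - 1) / 2 = 2 * (4 * k * k + 3 * k) + 1 := by
        rw [show 4 * k + 2 - 1 = 4 * k + 1 by omega,
          show (4 * k + 2) * (4 * k + 1) = 2 * (2 * (4 * k * k + 3 * k) + 1) by ring]
        omega
      rw [this]
      exact ⟨_, rfl⟩
    · obtain ⟨k, rfl⟩ : ∃ k, d = 4 * k + 3 := ⟨d / 4, by omega⟩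
      have : (4 * k + 3) * (4 * k + 3 - 1) / 2 = 2 * (4 * k * k + 5 * k + 1) + 1 := by
        rw [show 4 * k + 3 - 1 = 4 * k + 2 by omega,
          show (4 * k + 3) * (4 * k + 2) = 2 * (2 * (4 * k * k + 5 * k + 1) + 1) by ring]
        omega
      rw [this]
      exact ⟨_, rfl⟩

theorem mod8_cond (d : ℕ) (h : d % 8 = 3 ∨ d % 8 = 4 ∨ d % 8 = 5 ∨ d % 8 = 6) :
    ¬ 2 ^ (1 + 2) ∣ 4 * (d * (d - 1) / 4) := by
  intro hdvd
  have h8 : (d * (d - 1) / 4) % 2 = 0 := by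
    obtain ⟨k, hk⟩ := hdvd
    norm_num at hk
    omega
  obtain ⟨k, hk⟩ : ∃ k, d = 8 * k + d % 8 := ⟨d / 8, by omega⟩
  rcases h with h | h | h | h <;> rw [h] at hk <;> subst hk
  · rw [show (8 * k + 3) * (8 * k + 3 - 1) = 4 * (2 * (8 * k * k + 5 * k) + 1) + 2 by
      rw [show 8 * k + 3 - 1 = 8 * k + 2 by omega]; ring] at h8
    omega
  · rw [show (8 * k + 4) * (8 * k + 4 - 1) = 4 * (2 * (8 * k * k + 7 * k + 1) + 1) by
      rw [show 8 * k + 4 - 1 = 8 * k + 3 by omega]; ring] at h8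
    omega
  · rw [show (8 * k + 5) * (8 * k + 5 - 1) = 4 * (2 * (8 * k * k + 9 * k + 2) + 1) by
      rw [show 8 * k + 5 - 1 = 8 * k + 4 by omega]; ring] at h8
    omega
  · rw [show (8 * k + 6) * (8 * k + 6 - 1) = 4 * (2 * (8 * k * k + 11 * k + 3) + 1) + 2 by
      rw [show 8 * k + 6 - 1 = 8 * k + 5 by omega]; ring] at h8
    omega

/-- Arithmetic constraints on the field generated by the triple products of a maximal equiangular
tight frame. Let `e = oddNeighbour d`.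
* For every subfield `K` of `ℂ` containing all triple products: `(-1)^(d(d-1)/2) * e` is a square
  in `K`; if `2^(t+2)` does not divide `4 * ⌊d(d-1)/4⌋` then `-1` is a sum of `2^t` squares in `K`
  (so it is a sum of two squares in `K` when `d ≡ 3, 4, 5, 6 mod 8`); `K` has no embedding
  into `ℝ`.
* If all triple products lie in an imaginary quadratic field `ℚ(√-m)`, then `e` is a perfect
  square when `d ≡ 0, 1 mod 4`, `m * e` is a perfect square when `d ≡ 2, 3 mod 4`, and `d` is not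
  congruent to `4`, `5` or `6` modulo `8`. -/
theorem result (d : ℕ) (hd : 3 ≤ d) (x : Fin (d ^ 2) → EuclideanSpace ℂ (Fin d))
    (hx : IsMaximalETF d x) :
    (∀ K : Subfield ℂ, (∀ i j k, tripleProduct x i j k ∈ K) →
      (∃ r ∈ K, r ^ 2 = (-1) ^ (d * (d - 1) / 2) * (oddNeighbour d : ℂ)) ∧
      (∀ t : ℕ, ¬ 2 ^ (t + 2) ∣ 4 * (d * (d - 1) / 4) →
        ∃ a : Fin (2 ^ t) → ℂ, (∀ i, a i ∈ K) ∧ ∑ i, a i ^ 2 = -1) ∧
      (d % 8 = 3 ∨ d % 8 = 4 ∨ d % 8 = 5 ∨ d % 8 = 6 →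
        ∃ a ∈ K, ∃ b ∈ K, a ^ 2 + b ^ 2 = -1) ∧
      IsEmpty (K →+* ℝ)) ∧
    (∀ m : ℕ, 0 < m → (∀ i j k, ∃ p q : ℚ,
        tripleProduct x i j k = p + q * (Real.sqrt m * Complex.I)) →
      (d % 4 = 0 ∨ d % 4 = 1 → IsSquare (oddNeighbour d)) ∧
      (d % 4 = 2 ∨ d % 4 = 3 → IsSquare (m * oddNeighbour d)) ∧
      d % 8 ≠ 4 ∧ d % 8 ≠ 5 ∧ d % 8 ≠ 6) := by
  have two_sq : ∀ K : Subfield ℂ, (∀ i j k, tripleProduct x i j k ∈ K) →
      (d % 8 = 3 ∨ d % 8 = 4 ∨ d % 8 = 5 ∨ d % 8 = 6) →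
        ∃ a ∈ K, ∃ b ∈ K, a ^ 2 + b ^ 2 = -1 := by
    intro K hK h
    obtain ⟨a, ha, ha2⟩ := (part_one d hd x hx K hK).2 1 (mod8_cond d h)
    have e : ∑ i : Fin (2 ^ 1), a i ^ 2 = a 0 ^ 2 + a 1 ^ 2 := Fin.sum_univ_two _
    exact ⟨a 0, ha 0, a 1, ha 1, by rw [← e, ha2]⟩
  refine ⟨?_, ?_⟩
  · intro K hK
    have h1 := part_one d hd x hx K hK
    refine ⟨h1.1, h1.2, two_sq K hK, ⟨fun φ => ?_⟩⟩
    -- choose `t` large
    have hn : 0 < 4 * (d * (d - 1) / 4) := by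
      have h3 : 2 ≤ d - 1 := by omega
      have h4 : 6 ≤ d * (d - 1) := by nlinarith
      omega
    set n := 4 * (d * (d - 1) / 4) with hndef
    obtain ⟨a, ha, ha2⟩ := h1.2 n (by
      intro hdvd
      have h2 := Nat.le_of_dvd hn hdvd
      have h3 : n < 2 ^ n := Nat.lt_two_pow_self
      have h4 : 2 ^ n ≤ 2 ^ (n + 2) := Nat.pow_le_pow_right (by norm_num) (by omega)
      omega)
    let b : Fin (2 ^ n) → K := fun i => ⟨a i, ha i⟩
    have hb : ∑ i, b i ^ 2 = -1 := by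
      apply Subtype.coe_injective
      push_cast
      exact ha2
    have h5 := congrArg φ hb
    rw [map_sum, map_neg, map_one] at h5
    have h6 : 0 ≤ ∑ i, φ (b i ^ 2) := Finset.sum_nonneg fun i _ => by
      rw [map_pow]; positivity
    rw [h5] at h6
    linarith
  · intro m hm hq
    have hK : ∀ i j k, tripleProduct x i j k ∈ quadField m := fun i j k => hq i j k
    obtain ⟨⟨r, ⟨p, q, hr⟩, hr2⟩, _⟩ := part_one d hd x hx (quadField m) hK
    have he0 : (0 : ℚ) < oddNeighbour d := by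
      unfold oddNeighbour
      split_ifs
      · exact_mod_cast Nat.succ_pos d
      · exact_mod_cast (by omega : 0 < d)
    have hm0 : (0 : ℚ) < m := by exact_mod_cast hm
    have c1 : d % 4 = 0 ∨ d % 4 = 1 → IsSquare (oddNeighbour d) := by
      intro h
      have hev := (tri_parity d).1 h
      rw [hev.neg_one_pow, one_mul, hr] at hr2
      obtain ⟨h1, h2⟩ := sq_parts (c := (oddNeighbour d : ℚ)) hm (by rw [hr2]; simp)
      rcases mul_eq_zero.mp h2 with h3 | h3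
      · exfalso
        rw [h3] at h1
        have : (0 : ℚ) ≤ m * q ^ 2 := by positivity
        linarith
      · rw [h3] at h1
        rw [← Rat.isSquare_natCast_iff]
        exact ⟨p, by linarith⟩
    have c2 : d % 4 = 2 ∨ d % 4 = 3 → IsSquare (m * oddNeighbour d) := by
      intro h
      have hod := (tri_parity d).2 h
      rw [hod.neg_one_pow, hr] at hr2
      obtain ⟨h1, h2⟩ := sq_parts (c := -(oddNeighbour d : ℚ)) hm (by rw [hr2]; simp)
      rcases mul_eq_zero.mp h2 with h3 | h3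
      · rw [h3] at h1
        rw [← Rat.isSquare_natCast_iff]
        refine ⟨m * q, ?_⟩
        push_cast
        nlinarith
      · exfalso
        rw [h3] at h1
        have : (0 : ℚ) ≤ p ^ 2 := by positivity
        linarith
    refine ⟨c1, c2, ?_, ?_, ?_⟩
    · intro h
      have h1 := mod8_sq _ (c1 (by omega))
      have h2 : oddNeighbour d = d + 1 := if_pos (Nat.even_iff.mpr (by omega))
      omega
    · intro h
      have h1 := mod8_sq _ (c1 (by omega))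
      have h2 : oddNeighbour d = d := if_neg (by rw [Nat.even_iff]; omega)
      omega
    · intro h
      have h1 : IsSquare (m * oddNeighbour d) := c2 (by omega)
      have h2 : oddNeighbour d = d + 1 := if_pos (Nat.even_iff.mpr (by omega))
      obtain ⟨a, ⟨a1, a2, ha⟩, b, ⟨b1, b2, hb⟩, hab⟩ := two_sq (quadField m) hK (by omega)
      rw [ha, hb] at hab
      have h3 : ((a1 ^ 2 - m * a2 ^ 2 + b1 ^ 2 - m * b2 ^ 2 + 1 : ℚ) : ℂ)
          + ((2 * (a1 * a2 + b1 * b2) : ℚ) : ℂ) * (Real.sqrt m * Complex.I) = 0 := by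
        push_cast
        linear_combination hab - (a2 ^ 2 + b2 ^ 2 : ℂ) * sqrt_mul_I_sq m
      have hre := congrArg Complex.re h3
      have him := congrArg Complex.im h3
      have hs : 0 < Real.sqrt m := Real.sqrt_pos.mpr (by exact_mod_cast hm)
      rw [← Complex.ofReal_ratCast, ← Complex.ofReal_ratCast] at hre him
      simp only [Complex.add_re, Complex.ofReal_re, Complex.mul_re, Complex.ofReal_im,
        Complex.I_re, Complex.I_im, Complex.mul_im, mul_zero, zero_mul, sub_zero, mul_one,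
        Complex.add_im, zero_add, add_zero, sub_self, Complex.zero_re, Complex.zero_im]
        at hre him
      have e1 : (a1 ^ 2 - m * a2 ^ 2 + b1 ^ 2 - m * b2 ^ 2 + 1 : ℚ) = 0 := by exact_mod_cast hre
      have e2 : a1 * a2 + b1 * b2 = 0 := by
        have h4 : ((2 * (a1 * a2 + b1 * b2) : ℚ) : ℝ) = 0 := by
          rcases mul_eq_zero.mp him with h5 | h5
          · exact h5
          · exact absurd h5 hs.ne'
        have h5 : (2 * (a1 * a2 + b1 * b2) : ℚ) = 0 := by exact_mod_cast h4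
        linarith
      have ht : 0 < a2 ^ 2 + b2 ^ 2 := by
        have h4 : (m : ℚ) * (a2 ^ 2 + b2 ^ 2) = a1 ^ 2 + b1 ^ 2 + 1 := by linarith
        have h5 : 0 < (m : ℚ) * (a2 ^ 2 + b2 ^ 2) := by rw [h4]; positivity
        exact (pos_iff_pos_of_mul_pos h5).mp hm0
      have e3 : (m : ℚ) * (a2 ^ 2 + b2 ^ 2) ^ 2 = a2 ^ 2 + b2 ^ 2 + (a1 * b2 - a2 * b1) ^ 2 := by
        have h4 : (m : ℚ) * (a2 ^ 2 + b2 ^ 2) = a1 ^ 2 + b1 ^ 2 + 1 := by linarith
        calc (m : ℚ) * (a2 ^ 2 + b2 ^ 2) ^ 2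
            = (m * (a2 ^ 2 + b2 ^ 2)) * (a2 ^ 2 + b2 ^ 2) := by ring
          _ = (a1 ^ 2 + b1 ^ 2 + 1) * (a2 ^ 2 + b2 ^ 2) := by rw [h4]
          _ = a2 ^ 2 + b2 ^ 2 + (a1 * b2 - a2 * b1) ^ 2 + (a1 * a2 + b1 * b2) ^ 2 := by ring
          _ = _ := by rw [e2]; ring
      -- transfer from `m` to `d + 1`
      obtain ⟨s, hs1⟩ := h1
      rw [h2] at hs1
      have hs2 : (m : ℚ) * ((d : ℚ) + 1) = s * s := by exact_mod_cast hs1
      have hd0 : (0 : ℚ) < (d : ℚ) + 1 := by positivity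
      have hs0 : (s : ℚ) ≠ 0 := by
        intro h0
        rw [h0] at hs2
        have : (0 : ℚ) < m * ((d : ℚ) + 1) := by positivity
        simp at hs2
        rcases hs2 with h6 | h6
        · exact hm.ne' h6
        · linarith
      have hm' : (m : ℚ) = (d + 1) * (s / (d + 1)) ^ 2 := by
        field_simp
        linarith
      rw [hm'] at e3
      have e4 : ((d + 1 : ℕ) : ℚ) * ((s / (d + 1)) * (a2 ^ 2 + b2 ^ 2)) ^ 2
          = a2 ^ 2 + b2 ^ 2 + (a1 * b2 - a2 * b1) ^ 2 := by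
        rw [← e3]; push_cast; ring
      refine ThreeSq.rat_no_sol (d + 1) (by omega) _ _ _ _ ?_ e4
      exact mul_ne_zero (div_ne_zero hs0 hd0.ne') ht.ne'

end Pool.Agent.Results.MP_d0f9e0_co.TripleProductField
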