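import Mathlib
import Pool.Agent.H109R2.SICBase
import Pool.Agent.H109R2.SymGroup

set_option autoImplicit false

namespace Pool.Agent.Results.MP_d0f9e0_co.TwoGroupSymmetry

/-- `x` is a maximal equiangular tight frame in `ℂ^d`. -/
def IsMaximalETF (d : ℕ) (x : Fin (d ^ 2) → EuclideanSpace ℂ (Fin d)) : Prop :=
  (∀ i, ‖x i‖ = 1) ∧ ∀ i j, i ≠ j → ‖inner ℂ (x i) (x j)‖ = 1 / Real.sqrt ((d : ℝ) + 1)

/-- The unitary transformation `U` maps the line of `x i` to the line of `x (π i)` for all `i`. -/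
def Induces {d : ℕ} (x : Fin (d ^ 2) → EuclideanSpace ℂ (Fin d))
    (U : EuclideanSpace ℂ (Fin d) ≃ₗᵢ[ℂ] EuclideanSpace ℂ (Fin d))
    (π : Equiv.Perm (Fin (d ^ 2))) : Prop :=
  ∀ i, ∃ c : ℂ, U (x i) = c • x (π i)

/-- If `d + 1` is not a perfect square, then in every group `G` of unitary symmetries of a maximal
ETF in `ℂ^d` all line stabilisers have odd order, every power of two dividing `|G|` divides `d²`,
`|G| < 2d` if `G` is an elementary abelian two-group, and the involutions of `G` are induced by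
unitaries of trace zero only. -/
theorem result (d : ℕ) (hd : 3 ≤ d) (hsq : ¬ IsSquare (d + 1))
    (x : Fin (d ^ 2) → EuclideanSpace ℂ (Fin d)) (hx : IsMaximalETF d x)
    (G : Subgroup (Equiv.Perm (Fin (d ^ 2)))) (hG : ∀ π ∈ G, ∃ U, Induces x U π) :
    (∀ i : Fin (d ^ 2), Odd (Nat.card (MulAction.stabilizer G i))) ∧
    (∀ k : ℕ, 2 ^ k ∣ Nat.card G → 2 ^ k ∣ d ^ 2) ∧
    (Odd d → Odd (Nat.card G)) ∧
    ((∀ π ∈ G, π * π = 1) → Nat.card G < 2 * d) ∧
    (∀ π ∈ G, π ≠ 1 → π * π = 1 → ∀ U, Induces x U π →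
      LinearMap.trace ℂ (EuclideanSpace ℂ (Fin d)) U.toLinearEquiv.toLinearMap = 0) := by
  have hd1 : 1 ≤ d := by omega
  have h2 : ∀ k : ℕ, 2 ^ k ∣ Nat.card G → 2 ^ k ∣ d ^ 2 :=
    fun k hk => Pool.Agent.H109R2.SymGroup.two_part hd1 hsq hx G hG k hk
  refine ⟨fun i => Pool.Agent.H109R2.SymGroup.stab_odd hd1 hsq hx G hG i, h2, ?_, ?_, ?_⟩
  · intro hodd
    by_contra h
    rw [Nat.not_odd_iff_even] at h
    have h3 := h2 1 (by simpa using h.two_dvd)
    have h4 : Odd (d ^ 2) := hodd.pow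
    rw [pow_one] at h3
    exact (Nat.not_even_iff_odd.mpr h4) (even_iff_two_dvd.mpr h3)
  · intro hT2
    exact Pool.Agent.H109R2.SymGroup.card_lt hd hsq hx G hG hT2
  · intro π _ hπ1 hπ2 U hU
    obtain ⟨W, w, hW2, hWh, hWv, hw0, h⟩ :=
      Pool.Agent.H109R2.SymGroup.exists_invol_of hd1 hx π U hU hπ2
    have h3 := (Pool.Agent.H109R2.SymGroup.no_fixed hd1 hsq hx π hπ1 W hW2 hWh hWv).1
    rw [Pool.Agent.H109R2.SymGroup.trace_of W w U h] at h3
    exact (mul_eq_zero.mp h3).resolve_left hw0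

end Pool.Agent.Results.MP_d0f9e0_co.TwoGroupSymmetry
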